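import Pool.Agent.Helper69.MF.StA

/-!
# Project MF (MP_9583f0_gt), module GEN: general position
-/

set_option autoImplicit false

namespace Pool.Agent.Helper2.MF

open Set Topology Filter MeasureTheory
open Pool.Agent.Helper31.CY Pool.Agent.Helper69.MF

/-- a continuous function on the unit interval with equal values at the end points is close to a
polynomial with equal values at the end points -/
theorem polyApprox (f : unitInterval → ℝ) (hf : Continuous f) (h01 : f 0 = f 1) (ε : ℝ)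
    (hε : 0 < ε) : ∃ q : Polynomial ℝ, q.eval 0 = q.eval 1 ∧
      ∀ s : unitInterval, |q.eval (s : ℝ) - f s| < 3 * ε := by
  obtain ⟨p, hp⟩ := exists_polynomial_near_continuousMap (0 : ℝ) 1 (⟨f, hf⟩ : C(Icc (0 : ℝ) 1, ℝ)) ε hε
  have hps : ∀ s : unitInterval, |p.eval (s : ℝ) - f s| < ε := by
    intro s
    have h1 := (p.toContinuousMapOn (Icc (0 : ℝ) 1) - (⟨f, hf⟩ : C(Icc (0 : ℝ) 1, ℝ))).norm_coe_le_norm s
    have h2 : (p.toContinuousMapOn (Icc (0 : ℝ) 1) - (⟨f, hf⟩ : C(Icc (0 : ℝ) 1, ℝ))) s =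
        p.eval (s : ℝ) - f s := rfl
    rw [h2, Real.norm_eq_abs] at h1
    exact lt_of_le_of_lt h1 hp
  refine ⟨p - Polynomial.C (p.eval 1 - p.eval 0) * Polynomial.X, ?_, ?_⟩
  · simp
  · intro s
    have e0 := hps 0
    have e1 := hps 1
    have es := hps s
    have c0 : ((0 : unitInterval) : ℝ) = 0 := rfl
    have c1 : ((1 : unitInterval) : ℝ) = 1 := rfl
    rw [c0] at e0
    rw [c1] at e1
    have s0 : (0 : ℝ) ≤ (s : ℝ) := s.2.1
    have s1 : (s : ℝ) ≤ 1 := s.2.2
    simp only [Polynomial.eval_sub, Polynomial.eval_mul, Polynomial.eval_C, Polynomial.eval_X]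
    rw [abs_lt] at e0 e1 es ⊢
    have hd1 : p.eval 1 - p.eval 0 < 2 * ε := by linarith [e0.1, e0.2, e1.1, e1.2]
    have hd2 : -(2 * ε) < p.eval 1 - p.eval 0 := by linarith [e0.1, e0.2, e1.1, e1.2]
    constructor
    · nlinarith [es.1, es.2]
    · nlinarith [es.1, es.2]

theorem circ_closed (r h : ℝ) : IsClosed (circ r h) := by
  unfold circ
  have c0 : Continuous (fun x : E3 => x 0) := by fun_prop
  have c1 : Continuous (fun x : E3 => x 1) := by fun_prop
  have c2 : Continuous (fun x : E3 => x 2) := by fun_prop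
  exact (isClosed_eq ((c0.pow 2).add (c1.pow 2)) continuous_const).inter
    (isClosed_eq c2 continuous_const)

theorem pt_cont : Continuous (fun q : ℝ × ℝ × ℝ => pt q.1 q.2.1 q.2.2) := by
  unfold pt
  refine (PiLp.continuous_toLp 2 _).comp ?_
  refine continuous_pi fun i => ?_
  fin_cases i <;> simp <;> fun_prop

theorem dist_lt (x y : E3) (δ : ℝ) (hδ : 0 < δ) (h0 : |x 0 - y 0| < δ / 2)
    (h1 : |x 1 - y 1| < δ / 2) (h2 : |x 2 - y 2| < δ / 2) : dist x y < δ := by
  rw [EuclideanSpace.dist_eq, Real.sqrt_lt' hδ, Fin.sum_univ_three]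
  simp only [Real.dist_eq]
  have a0 := abs_nonneg (x 0 - y 0)
  have a1 := abs_nonneg (x 1 - y 1)
  have a2 := abs_nonneg (x 2 - y 2)
  nlinarith

/-- **module GEN** -/
theorem hGEN : StGEN := by
  intro r0 r1 h _ _ _ γ hγ
  obtain ⟨hc, h01, hΓ⟩ := hγ
  set Γ : Set E3 := circ r0 0 ∪ circ r1 h with hΓdef
  have hΓc : IsClosed Γ := (circ_closed r0 0).union (circ_closed r1 h)
  have hdis : Disjoint (range γ) Γ := by
    rw [Set.disjoint_left]
    rintro _ ⟨s, rfl⟩
    exact hΓ s
  obtain ⟨δ, hδ, hth⟩ := hdis.exists_thickenings (isCompact_range hc) hΓc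
  have hfar : ∀ (s : unitInterval) (y : E3), dist y (γ s) < δ → y ∉ Γ := by
    intro s y hy hyΓ
    rw [Set.disjoint_left] at hth
    refine hth (a := y) ?_ ?_
    · rw [Metric.mem_thickening_iff]
      exact ⟨γ s, mem_range_self s, hy⟩
    · exact Metric.self_subset_thickening hδ Γ hyΓ
  have hε : (0 : ℝ) < δ / 8 := by positivity
  have g0 : Continuous (fun s => γ s 0) := by fun_prop
  have g1 : Continuous (fun s => γ s 1) := by fun_prop
  have g2 : Continuous (fun s => γ s 2) := by fun_prop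
  obtain ⟨q0, a0, b0⟩ := polyApprox (fun s => γ s 0) g0 (by simp only [h01]) _ hε
  obtain ⟨q1, a1, b1⟩ := polyApprox (fun s => γ s 1) g1 (by simp only [h01]) _ hε
  obtain ⟨q2, a2, b2⟩ := polyApprox (fun s => γ s 2) g2 (by simp only [h01]) _ hε
  -- a small generic translation in the plane
  have hPc : ∀ q : Polynomial ℝ, ContDiff ℝ 1 (fun s : ℝ => q.eval s) := by
    intro q
    have h5 := Polynomial.contDiff_aeval (𝕜 := ℝ) q 1
    simpa using h5
  have hF : ContDiff ℝ 1 (fun s : ℝ => (q0.eval s, q1.eval s)) := (hPc q0).prodMk (hPc q1)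
  have hdense : Dense (range (fun s : ℝ => (q0.eval s, q1.eval s)))ᶜ := by
    refine hF.dense_compl_range_of_finrank_lt_finrank ?_
    simp
  obtain ⟨e, he1, he2⟩ := hdense.exists_dist_lt (0, 0) hε
  rw [Prod.dist_eq, max_lt_iff, Real.dist_eq, Real.dist_eq] at he2
  simp only [zero_sub, abs_neg] at he2
  obtain ⟨e2, he2m, he2n⟩ := (Ioo_infinite hε).exists_notMem_finite
    (Set.toFinite ({-(q2.eval 0), h - q2.eval 0} : Set ℝ))
  simp only [mem_insert_iff, mem_singleton_iff, not_or] at he2n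
  set γ1 : unitInterval → E3 := fun s =>
    pt (q0.eval (s : ℝ) - e.1) (q1.eval (s : ℝ) - e.2) (q2.eval (s : ℝ) + e2) with hγ1
  have k0 : ∀ s, γ1 s 0 = q0.eval (s : ℝ) - e.1 := fun s => by simp [hγ1, pt]
  have k1 : ∀ s, γ1 s 1 = q1.eval (s : ℝ) - e.2 := fun s => by simp [hγ1, pt]
  have k2 : ∀ s, γ1 s 2 = q2.eval (s : ℝ) + e2 := fun s => by simp [hγ1, pt]
  have hclose : ∀ s, dist (γ1 s) (γ s) < δ := by
    intro s
    have c0 := b0 s
    have c1 := b1 s
    have c2 := b2 s
    have d1 := he2.1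
    have d2 := he2.2
    rw [abs_lt] at c0 c1 c2 d1 d2
    refine dist_lt _ _ δ hδ ?_ ?_ ?_
    · rw [k0, abs_lt]
      constructor <;> linarith [c0.1, c0.2, d1.1, d1.2]
    · rw [k1, abs_lt]
      constructor <;> linarith [c1.1, c1.2, d2.1, d2.2]
    · rw [k2, abs_lt]
      constructor <;> linarith [c2.1, c2.2, he2m.1, he2m.2]
  have hc1 : Continuous γ1 := by
    have hp : ∀ q : Polynomial ℝ, Continuous (fun s : unitInterval => q.eval (s : ℝ)) :=
      fun q => q.continuous.comp continuous_subtype_val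
    exact pt_cont.comp (((hp q0).sub continuous_const).prodMk
      (((hp q1).sub continuous_const).prodMk ((hp q2).add continuous_const)))
  have hends : γ1 0 = γ1 1 := by
    have c0 : ((0 : unitInterval) : ℝ) = 0 := rfl
    have c1 : ((1 : unitInterval) : ℝ) = 1 := rfl
    simp only [hγ1, c0, c1, a0, a1, a2]
  refine ⟨γ1, ⟨fun q => (1 - (q.1 : ℝ)) • γ q.2 + (q.1 : ℝ) • γ1 q.2, ?_, ?_, ?_, ?_, ?_⟩, ?_, ?_, ?_⟩
  · have c1 : Continuous (fun q : unitInterval × unitInterval => (q.1 : ℝ)) :=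
      continuous_subtype_val.comp continuous_fst
    exact ((continuous_const.sub c1).smul (hc.comp continuous_snd)).add
      (c1.smul (hc1.comp continuous_snd))
  · intro s
    simp
  · intro s
    simp
  · intro t
    simp only [h01, hends]
  · rintro ⟨t, s⟩
    refine hfar s _ ?_
    have e1 : (1 - (t : ℝ)) • γ s + (t : ℝ) • γ1 s - γ s = (t : ℝ) • (γ1 s - γ s) := by
      rw [sub_smul, one_smul, smul_sub]
      abel
    have t0 : (0 : ℝ) ≤ (t : ℝ) := t.2.1
    have t1 : (t : ℝ) ≤ 1 := t.2.2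
    rw [dist_eq_norm, e1, norm_smul, Real.norm_eq_abs, abs_of_nonneg t0]
    have h3 := hclose s
    rw [dist_eq_norm] at h3
    calc (t : ℝ) * ‖γ1 s - γ s‖ ≤ 1 * ‖γ1 s - γ s‖ :=
          mul_le_mul_of_nonneg_right t1 (norm_nonneg _)
      _ < δ := by rw [one_mul]; exact h3
  · intro s
    unfold rad
    apply Real.sqrt_pos.2
    rw [k0, k1]
    by_contra hcon
    have hn0 := sq_nonneg (q0.eval (s : ℝ) - e.1)
    have hn1 := sq_nonneg (q1.eval (s : ℝ) - e.2)
    have z0 : (q0.eval (s : ℝ) - e.1) ^ 2 = 0 := by linarith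
    have z1 : (q1.eval (s : ℝ) - e.2) ^ 2 = 0 := by linarith
    have w0 : q0.eval (s : ℝ) = e.1 := by
      have := pow_eq_zero_iff (two_ne_zero) |>.1 z0
      linarith
    have w1 : q1.eval (s : ℝ) = e.2 := by
      have := pow_eq_zero_iff (two_ne_zero) |>.1 z1
      linarith
    exact he1 ⟨(s : ℝ), by simp only [w0, w1]⟩
  · rw [k2]
    intro hz
    apply he2n.1
    have c0 : ((0 : unitInterval) : ℝ) = 0 := rfl
    rw [c0] at hz
    linarith
  · rw [k2]
    intro hz
    apply he2n.2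
    have c0 : ((0 : unitInterval) : ℝ) = 0 := rfl
    rw [c0] at hz
    linarith

end Pool.Agent.Helper2.MF
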